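import Pool.Agent.H73.CBD.Stmts

/-! Row UDR of the board cbd (MP_e1af46_an). -/

set_option autoImplicit false

open Set Filter Topology

namespace Pool.CBD

private theorem udr_sq (w : ℂ) : ‖w‖ ^ 2 = w.re ^ 2 + w.im ^ 2 := by
  rw [Complex.sq_norm, Complex.normSq_apply]
  ring

private theorem udr_four (w : ℂ) : ‖w‖ ^ 4 = (w.re ^ 2 + w.im ^ 2) ^ 2 := by
  rw [← udr_sq]
  ring

private theorem udr_re (A : ℝ) (w : ℂ) : ((A : ℂ) * w).re = A * w.re := by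
  simp

theorem UDR_thm (h1 : ALGStmt) (h2 : NDRStmt) : UDRStmt := by
  obtain ⟨k1, k2, -, k4, -, -, k7, k8, k9⟩ := h1
  obtain ⟨n1, n2⟩ := h2
  intro z hz
  have hN : N z ≠ 0 := (k7 z hz).ne'
  have hNf : N (f z) ≠ 0 := (k7 (f z) (k8 z hz)).ne'
  have hf : ContDiff ℝ 1 f := k4.of_le (by norm_num)
  have hN1 : ContDiff ℝ 1 N := n1.of_le (by norm_num)
  have hNf1 : ContDiff ℝ 1 (fun y => N (f y)) := hN1.comp hf
  refine ⟨?_, fun v => ?_⟩
  · unfold u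
    exact ((hNf1.contDiffAt).log hNf).sub (contDiffAt_const.mul ((hN1.contDiffAt).log hN))
  · have d1 : HasFDerivAt (fun y => N (f y)) ((fderiv ℝ N (f z)).comp (fderiv ℝ f z)) z :=
      (hN1.differentiable (by norm_num) (f z)).hasFDerivAt.comp z
        (hf.differentiable (by norm_num) z).hasFDerivAt
    have d2 : HasFDerivAt N (fderiv ℝ N z) z :=
      (hN1.differentiable (by norm_num) z).hasFDerivAt
    have d3 : HasFDerivAt u ((N (f z))⁻¹ • ((fderiv ℝ N (f z)).comp (fderiv ℝ f z)) -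
        (2 : ℝ) • ((N z)⁻¹ • fderiv ℝ N z)) z := (d1.log hNf).sub ((d2.log hN).const_mul 2)
    rw [d3.fderiv]
    simp only [ContinuousLinearMap.sub_apply, ContinuousLinearMap.smul_apply,
      ContinuousLinearMap.comp_apply, smul_eq_mul]
    rw [n2, n2, k2, k1]
    have hN' : N z = ((z 0).re ^ 2 + (z 0).im ^ 2) + ((z 1).re ^ 2 + (z 1).im ^ 2) := by
      unfold N
      rw [udr_sq, udr_sq]
    have h4 : ‖z 0‖ ^ 4 + ‖z 1‖ ^ 4 = ((z 0).re ^ 2 + (z 0).im ^ 2) ^ 2 +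
        ((z 1).re ^ 2 + (z 1).im ^ 2) ^ 2 := by
      rw [udr_four, udr_four]
    have h40 := (k9 z hz).ne'
    rw [h4] at h40
    rw [hN'] at hN
    have e1 : (nu z * P z v).re = 4 * (((z 0).re ^ 2 + (z 0).im ^ 2) -
        ((z 1).re ^ 2 + (z 1).im ^ 2)) / (((z 0).re ^ 2 + (z 0).im ^ 2) ^ 2 +
        ((z 1).re ^ 2 + (z 1).im ^ 2) ^ 2) *
        (((starRingEnd ℂ) (z 0) * v 0).re * ((z 1).re ^ 2 + (z 1).im ^ 2) -
        ((starRingEnd ℂ) (z 1) * v 1).re * ((z 0).re ^ 2 + (z 0).im ^ 2)) := by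
      unfold nu P
      rw [h4, udr_sq, udr_sq]
      set c : ℝ := ((((z 0).re ^ 2 + (z 0).im ^ 2) - ((z 1).re ^ 2 + (z 1).im ^ 2)) /
        (((z 0).re ^ 2 + (z 0).im ^ 2) ^ 2 + ((z 1).re ^ 2 + (z 1).im ^ 2) ^ 2)) with hc
      have e2 : -4 * (c : ℂ) * ((starRingEnd ℂ) (z 0) * (starRingEnd ℂ) (z 1)) *
          (z 0 * v 1 - z 1 * v 0) = (((-4 * c : ℝ)) : ℂ) *
          ((starRingEnd ℂ) (z 0) * (starRingEnd ℂ) (z 1) * (z 0 * v 1 - z 1 * v 0)) := by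
        push_cast
        ring
      rw [e2, udr_re]
      have e3 : 4 * (((z 0).re ^ 2 + (z 0).im ^ 2) - ((z 1).re ^ 2 + (z 1).im ^ 2)) /
          (((z 0).re ^ 2 + (z 0).im ^ 2) ^ 2 + ((z 1).re ^ 2 + (z 1).im ^ 2) ^ 2) = 4 * c := by
        rw [hc]
        ring
      rw [e3]
      simp only [Complex.mul_re, Complex.mul_im, Complex.sub_re, Complex.sub_im,
        Complex.conj_re, Complex.conj_im]
      ring
    rw [e1, hN', h4]
    have g0 : f z 0 = z 0 ^ 2 - z 1 ^ 2 := rfl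
    have g1 : f z 1 = z 0 ^ 2 + z 1 ^ 2 := rfl
    have e5 : ((starRingEnd ℂ) (f z 0) *
        (![2 * z 0 * v 0 - 2 * z 1 * v 1, 2 * z 0 * v 0 + 2 * z 1 * v 1] : V) 0 +
        (starRingEnd ℂ) (f z 1) *
        (![2 * z 0 * v 0 - 2 * z 1 * v 1, 2 * z 0 * v 0 + 2 * z 1 * v 1] : V) 1).re =
        4 * (((z 0).re ^ 2 + (z 0).im ^ 2) * ((starRingEnd ℂ) (z 0) * v 0).re +
          ((z 1).re ^ 2 + (z 1).im ^ 2) * ((starRingEnd ℂ) (z 1) * v 1).re) := by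
      rw [g0, g1]
      have q0 : (![2 * z 0 * v 0 - 2 * z 1 * v 1, 2 * z 0 * v 0 + 2 * z 1 * v 1] : V) 0 =
        2 * z 0 * v 0 - 2 * z 1 * v 1 := rfl
      have q1 : (![2 * z 0 * v 0 - 2 * z 1 * v 1, 2 * z 0 * v 0 + 2 * z 1 * v 1] : V) 1 =
        2 * z 0 * v 0 + 2 * z 1 * v 1 := rfl
      rw [q0, q1]
      simp only [map_sub, map_add, map_pow, pow_two, Complex.mul_re, Complex.mul_im,
        Complex.sub_re, Complex.sub_im, Complex.add_re, Complex.add_im,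
        Complex.conj_re, Complex.conj_im, Complex.re_ofNat, Complex.im_ofNat]
      ring
    rw [e5, Complex.add_re]
    field_simp
    ring

end Pool.CBD
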